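import Mathlib

set_option autoImplicit false

namespace Pool.Agent.H.MP_4bee3f_an
open Set Metric Filter Topology

abbrev E := EuclideanSpace ℝ (Fin 2)

lemma lip0 {f : E → ℝ} {f' : E → E →L[ℝ] ℝ} (C : NNReal)
    (h0 : ∀ p : E, ‖p‖ < 1 → |f p| ≤ C * ‖p‖)
    (h1 : ∀ p : E, p ≠ 0 → HasFDerivAt f (f' p) p)
    (h2 : ∀ p : E, ‖p‖ < 1 → p ≠ 0 → ‖f' p‖ ≤ C) : LipschitzOnWith C f (ball 0 1) := by
  refine LipschitzOnWith.of_dist_le_mul fun x hx y hy => ?_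
  by_cases h : (0 : E) ∈ segment ℝ x y
  · rw [← dist_add_dist_of_mem_segment h, dist_zero_right, dist_zero_left, mul_add]
    exact (abs_sub _ _).trans (add_le_add (h0 x (by simpa using hx)) (h0 y (by simpa using hy)))
  · rw [dist_eq_norm, dist_eq_norm]
    exact (convex_segment x y).norm_image_sub_le_of_norm_hasFDerivWithin_le (f' := f')
      (fun p hp => (h1 p fun e => h (e ▸ hp)).hasFDerivWithinAt)
      (fun p hp => h2 p (by simpa using (convex_ball (0 : E) 1).segment_subset hx hy hp)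
        fun e => h (e ▸ hp)) (right_mem_segment ℝ x y) (left_mem_segment ℝ x y)

noncomputable def L (p : E) : ℝ := Real.log (‖p‖ ^ 2)
noncomputable def pr (i : Fin 2) : E →L[ℝ] ℝ := EuclideanSpace.proj i
noncomputable def dr (p : E) : E →L[ℝ] ℝ := 2 • innerSL ℝ p

lemma co (p : E) (i : Fin 2) : |p i| ≤ ‖p‖ := PiLp.norm_apply_le p i
lemma npr (i : Fin 2) : ‖pr i‖ ≤ 1 :=
  ContinuousLinearMap.opNorm_le_bound _ zero_le_one fun p => by simpa [pr] using co p i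
lemma ndr (p : E) : ‖dr p‖ ≤ 2 * ‖p‖ := by
  rw [dr, two_smul]; exact (norm_add_le _ _).trans (by simp [two_mul])

lemma bL {p : E} (h : ‖p‖ < 1) : ‖p‖ * |L p| ≤ 4 ∧ ‖p‖ * |L p| ^ 2 ≤ 16 := by
  rcases (norm_nonneg p).eq_or_lt with h0 | h0
  · simp [← h0]
  set t := √‖p‖ with ht
  have t0 : 0 < t := Real.sqrt_pos.2 h0
  have t1 : t ≤ 1 := Real.sqrt_le_one.2 h.le
  have e : ‖p‖ = t ^ 2 := (Real.sq_sqrt h0.le).symm
  have e2 : |L p| = 4 * |Real.log t| := by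
    rw [L, e, ← pow_mul, Real.log_pow, abs_mul]; norm_num
  have := Real.abs_log_mul_self_lt t t0 t1
  rw [abs_mul, abs_of_pos t0] at this
  have h3 := mul_nonneg (abs_nonneg (Real.log t)) t0.le
  rw [e2, e]
  constructor <;> nlinarith

lemma dx (i : Fin 2) (p : E) : HasFDerivAt (fun p : E => p i) (pr i) p := (pr i).hasFDerivAt
lemma dn (p : E) : HasFDerivAt (fun p : E => ‖p‖ ^ 2) (dr p) p :=
  (hasStrictFDerivAt_norm_sq p).hasFDerivAt
lemma dL {p : E} (h : p ≠ 0) : HasFDerivAt L ((‖p‖ ^ 2)⁻¹ • dr p) p :=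
  (dn p).log (by simpa using h)

noncomputable def m (i j : Fin 2) (p : E) : ℝ := p i * p j * L p
noncomputable def m' (i j : Fin 2) (p : E) : E →L[ℝ] ℝ :=
  (p i * p j) • (‖p‖ ^ 2)⁻¹ • dr p + L p • (p i • pr j + p j • pr i)
lemma dm (i j : Fin 2) {p : E} (h : p ≠ 0) : HasFDerivAt (m i j) (m' i j p) p :=
  ((dx i p).mul (dx j p)).mul (dL h)

lemma ns {a b c : ℝ} {T : E →L[ℝ] ℝ} (h1 : |a| ≤ b) (h2 : ‖T‖ ≤ c) : ‖a • T‖ ≤ b * c := by
  rw [norm_smul]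
  exact mul_le_mul h1 h2 (norm_nonneg _) ((abs_nonneg _).trans h1)

lemma co2 (p : E) (i j : Fin 2) : |p i * p j| ≤ ‖p‖ * ‖p‖ := by
  rw [abs_mul]; exact mul_le_mul (co p i) (co p j) (abs_nonneg _) (norm_nonneg _)

lemma lm (i j : Fin 2) : LipschitzOnWith 10 (m i j) (ball 0 1) := by
  refine lip0 10 (fun p hp => ?_) (fun p => dm i j) fun p hp h0 => ?_
  · rw [m, abs_mul]
    have := mul_le_mul_of_nonneg_right (co2 p i j) (abs_nonneg (L p))
    have := mul_le_mul_of_nonneg_left (bL hp).1 (norm_nonneg p)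
    push_cast; nlinarith [norm_nonneg p]
  · have n0 := norm_pos_iff.2 h0
    refine (norm_add_le_of_le (ns (co2 p i j) (ns (abs_of_pos (by positivity)).le (ndr p)))
      (ns le_rfl (norm_add_le_of_le (ns (co p i) (npr j)) (ns (co p j) (npr i))))).trans ?_
    have : ‖p‖ * ‖p‖ * ((‖p‖ ^ 2)⁻¹ * (2 * ‖p‖)) = 2 * ‖p‖ := by field_simp
    push_cast; nlinarith [(bL hp).1]

noncomputable def h (i : Fin 2) (p : E) : ℝ := p i * (p i * p i) * (‖p‖ ^ 2)⁻¹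

lemma lh (i : Fin 2) : LipschitzOnWith 5 (h i) (ball 0 1) := by
  have c3 : ∀ p : E, |p i * (p i * p i)| ≤ ‖p‖ * (‖p‖ * ‖p‖) := fun p => by
    rw [abs_mul]; exact mul_le_mul (co p i) (co2 p i i) (abs_nonneg _) (norm_nonneg _)
  refine lip0 5 (fun p hp => ?_) (fun p h0 => ((dx i p).mul ((dx i p).mul (dx i p))).mul
    ((hasDerivAt_inv (by simpa using h0)).comp_hasFDerivAt p (dn p))) fun p hp h0 => ?_
  · by_cases h0 : p = 0
    · simp [h, h0]
    have n0 := norm_pos_iff.2 h0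
    rw [h, abs_mul, abs_of_pos (show 0 < (‖p‖ ^ 2)⁻¹ by positivity)]
    refine (mul_le_mul_of_nonneg_right (c3 p) (by positivity)).trans ?_
    have : ‖p‖ * (‖p‖ * ‖p‖) * (‖p‖ ^ 2)⁻¹ = ‖p‖ := by field_simp
    push_cast; linarith
  · have n0 := norm_pos_iff.2 h0
    refine (norm_add_le_of_le (ns (c3 p) (ns (abs_of_neg (neg_neg_of_pos (by positivity))).le
      (ndr p))) (ns (abs_of_pos (show 0 < (‖p‖ ^ 2)⁻¹ by positivity)).le (norm_add_le_of_le
      (ns (co p i) (norm_add_le_of_le (ns (co p i) (npr i)) (ns (co p i) (npr i))))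
      (ns (co2 p i i) (npr i))))).trans (le_of_eq ?_)
    push_cast; field_simp; norm_num

noncomputable def q (p : E) : ℝ := ‖p‖ ^ 2 * (L p * L p + L p)

lemma lq : LipschitzOnWith 60 q (ball 0 1) := by
  have b : ∀ p : E, |L p * L p + L p| ≤ |L p| ^ 2 + |L p| := fun p =>
    (abs_add_le _ _).trans (by rw [abs_mul, sq])
  refine lip0 60 (fun p hp => ?_) (fun p h0 => (dn p).mul (((dL h0).mul (dL h0)).add (dL h0)))
    fun p hp h0 => ?_
  · rw [q, abs_mul, abs_of_nonneg (sq_nonneg _)]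
    have := mul_le_mul_of_nonneg_left (b p) (sq_nonneg ‖p‖)
    have := mul_le_mul_of_nonneg_left (bL hp).1 (norm_nonneg p)
    have := mul_le_mul_of_nonneg_left (bL hp).2 (norm_nonneg p)
    push_cast; nlinarith [norm_nonneg p]
  · have n0 := norm_pos_iff.2 h0
    have a := ns (abs_of_pos (show 0 < (‖p‖ ^ 2)⁻¹ by positivity)).le (ndr p)
    refine (norm_add_le_of_le (ns (abs_of_nonneg (sq_nonneg _)).le (norm_add_le_of_le
      (norm_add_le_of_le (ns le_rfl a) (ns le_rfl a)) a)) (ns (b p) (ndr p))).trans ?_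
    have : ‖p‖ ^ 2 * (|L p| * ((‖p‖ ^ 2)⁻¹ * (2 * ‖p‖)) + |L p| * ((‖p‖ ^ 2)⁻¹ * (2 * ‖p‖)) +
      (‖p‖ ^ 2)⁻¹ * (2 * ‖p‖)) = 4 * (‖p‖ * |L p|) + 2 * ‖p‖ := by field_simp; ring
    push_cast; nlinarith [(bL hp).1, (bL hp).2]

def Lp (f : E → ℝ) : Prop := ∃ C, LipschitzOnWith C f (ball 0 1)

lemma Lp.add {f g : E → ℝ} (a : Lp f) (b : Lp g) : Lp fun p => f p + g p :=
  let ⟨_, a⟩ := a; let ⟨_, b⟩ := b; ⟨_, a.add b⟩
lemma Lp.smul {f : E → ℝ} (c : ℝ) (a : Lp f) : Lp fun p => c * f p :=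
  let ⟨_, a⟩ := a; ⟨_, (lipschitzWith_smul c).comp_lipschitzOnWith a⟩
lemma Lp.const (c : ℝ) : Lp fun _ => c := ⟨_, (LipschitzWith.const c).lipschitzOnWith⟩
lemma Lp.co (i : Fin 2) : Lp fun p => p i := ⟨_, (pr i).lipschitz.lipschitzOnWith⟩

lemma Lp.loc {f : E → ℝ} (a : Lp f) {r : ℝ} (hr : r ≤ 1) (x : E) :
    ∃ C : NNReal, ∃ U ∈ nhds x, LipschitzOnWith C f (U ∩ ball 0 r) :=
  let ⟨C, a⟩ := a; ⟨C, univ, univ_mem, a.mono (inter_subset_right.trans (ball_subset_ball hr))⟩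

lemma Lp.zero {f : E → ℝ} (a : Lp f) {r : ℝ} (hr : r ≤ 1) :
    ContDiffOn ℝ (0 : ℕ) f (ball 0 r) ∧ ∀ x ∈ ball (0 : E) r, ∃ C : NNReal, ∃ U ∈ nhds x,
      LipschitzOnWith C (iteratedFDeriv ℝ 0 f) (U ∩ ball 0 r) := by
  refine ⟨contDiffOn_zero.2 (a.choose_spec.continuousOn.mono (ball_subset_ball hr)), fun x _ => ?_⟩
  obtain ⟨C, U, hU, h⟩ := a.loc hr x
  rw [iteratedFDeriv_zero_eq_comp]
  exact ⟨_, U, hU, (LinearIsometryEquiv.lipschitz _).comp_lipschitzOnWith h⟩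

noncomputable def u : Fin 2 → E → ℝ :=
  ![fun p => p 0 + (m 0 0 p + -1 * m 1 1 p), fun p => -1 * p 1 + 2 * m 0 1 p]
noncomputable def c : Fin 2 → E → ℝ :=
  ![fun p => 2 + (8 * h 0 p + -6 * p 0), fun p => 6 * p 1 + -8 * h 1 p]
noncomputable def J (p : E) : ℝ := 4 * q p + (-8 * h 0 p + (6 * p 0 + -1))
def A : Fin 2 → Fin 2 → Fin 2 → E → ℝ := fun j i l _ => ![![![1, 0], ![0, 1]], ![![0, -1], ![1, 0]]] j i l

lemma lu (i : Fin 2) : Lp (u i) := by
  fin_cases i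
  · exact (Lp.co 0).add (Lp.add ⟨_, lm 0 0⟩ (.smul _ ⟨_, lm 1 1⟩))
  · exact ((Lp.co 1).smul _).add (.smul _ ⟨_, lm 0 1⟩)
lemma lc (i : Fin 2) : Lp (c i) := by
  fin_cases i
  · exact (Lp.const 2).add (Lp.add (.smul _ ⟨_, lh 0⟩) (.smul _ (Lp.co 0)))
  · exact ((Lp.co 1).smul _).add (.smul _ ⟨_, lh 1⟩)
lemma lJ : Lp J := (Lp.smul _ ⟨_, lq⟩).add ((Lp.smul _ ⟨_, lh 0⟩).add
  (((Lp.co 0).smul _).add (.const _)))

lemma du0 {p : E} (h : p ≠ 0) : fderiv ℝ (u 0) p = pr 0 + (m' 0 0 p + (-1 : ℝ) • m' 1 1 p) :=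
  ((dx 0 p).add ((dm 0 0 h).add ((dm 1 1 h).const_mul _))).fderiv
lemma du1 {p : E} (h : p ≠ 0) : fderiv ℝ (u 1) p = (-1 : ℝ) • pr 1 + (2 : ℝ) • m' 0 1 p :=
  (((dx 1 p).const_mul _).add ((dm 0 1 h).const_mul _)).fderiv

lemma nsq (p : E) : ‖p‖ ^ 2 = p 0 ^ 2 + p 1 ^ 2 := by
  simp [EuclideanSpace.norm_sq_eq]

lemma eqn {p : E} (h0 : p ≠ 0) : (∀ i, ∑ j, ∑ l, A j i l p * fderiv ℝ (u l) p
    (EuclideanSpace.single j 1) + ∑ l, (0 : ℝ) * u l p = c i p) ∧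
    (Matrix.of fun i j => fderiv ℝ (u i) p (EuclideanSpace.single j 1)).det = J p := by
  have n0 : p 0 ^ 2 + p 1 ^ 2 ≠ 0 := by rw [← nsq]; simpa using h0
  refine ⟨fun i => ?_, ?_⟩
  · fin_cases i <;> simp [A, c, du0 h0, du1 h0, m', dr, pr, h, nsq, EuclideanSpace.inner_single_right]
      <;> field_simp <;> ring
  · simp [Matrix.det_fin_two, J, du0 h0, du1 h0, m', dr, pr, h, q, nsq,
      EuclideanSpace.inner_single_right]
    field_simp; ring

lemma axis {t : ℝ} (ht : 0 < t) : fderiv ℝ (u 0) (EuclideanSpace.single 0 t)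
    (EuclideanSpace.single 0 1) = 1 + 2 * t + 4 * t * Real.log t := by
  have := ht.ne'
  rw [du0 (by simpa using this)]
  simp [m', dr, pr, L, EuclideanSpace.inner_single_right]
  field_simp; ring

lemma nolip {C : NNReal} {U : Set E} (hU : U ∈ 𝓝 (0 : E)) :
    ¬ LipschitzOnWith C (iteratedFDeriv ℝ 1 (u 0)) U := fun h => by
  have c1 : ∀ a : ℝ, Tendsto (fun t : ℝ => (EuclideanSpace.single 0 (a * t) : E)) (𝓝[>] 0) (𝓝 0) :=
    fun a => tendsto_zero_iff_norm_tendsto_zero.2 (by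
      simp only [PiLp.norm_single]
      exact tendsto_nhdsWithin_of_tendsto_nhds (Continuous.tendsto' (by fun_prop) _ _ (by simp)))
  obtain ⟨t, ⟨t1, t2⟩, t0, t3⟩ := ((((c1 1).eventually hU).and ((c1 2).eventually hU)).and
    (eventually_mem_nhdsWithin.and (Real.tendsto_log_nhdsGT_zero.eventually_lt_atBot (-C - 10)))).exists
  have t0 : 0 < t := t0
  have := h.dist_le_mul _ t1 _ t2
  rw [dist_eq_norm, dist_eq_norm] at this
  have e := (ContinuousMultilinearMap.le_opNorm _ fun _ => EuclideanSpace.single 0 (1 : ℝ)).trans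
    (mul_le_mul_of_nonneg_right this (by positivity))
  rw [sub_apply, iteratedFDeriv_one_apply, iteratedFDeriv_one_apply,
    axis (by positivity), axis (by positivity), ← PiLp.single_sub, Real.log_mul two_ne_zero t0.ne']
    at e
  have l2 := Real.log_two_lt_d9
  simp only [PiLp.norm_single, Finset.prod_const, norm_one, one_pow, mul_one, one_mul,
    Real.norm_eq_abs, show t - 2 * t = -t by ring, abs_neg, abs_of_pos t0] at e
  have := (le_abs_self _).trans e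
  have := mul_lt_mul_of_pos_left t3 t0
  have := mul_lt_mul_of_pos_left l2 t0
  have := mul_nonneg t0.le C.2
  simp only [NNReal.val_eq_coe] at this
  nlinarith

end Pool.Agent.H.MP_4bee3f_an
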